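import Pool.Agent.L0h7.UL.Stm

/-! # Module SEQ: the limit of a sequence of counterexamples to a uniform bound -/

set_option autoImplicit false

open Filter Topology

noncomputable section

namespace Pool.Agent.L0h92.UL

open Pool.Agent.L0h7.UL H61R3NG

/-- enumeration of a finite set by a subset of `Fin n` -/
lemma enum_exists {G : Type} [Group G] (s : Finset G) (n : ℕ) (h : s.card ≤ n) :
    ∃ (t : Fin n → G) (S : Finset (Fin n)), (∀ i ∈ S, t i ∈ s) ∧
      (∀ i ∈ S, ∀ j ∈ S, t i = t j → i = j) ∧ (∀ x ∈ s, ∃ i ∈ S, t i = x) ∧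
      ∀ i, i ∉ S → t i = 1 := by
  classical
  let e := s.equivFin
  refine ⟨fun i => if h : i.1 < s.card then (e.symm ⟨i.1, h⟩ : G) else 1,
    Finset.univ.filter (fun i => i.1 < s.card), ?_, ?_, ?_, ?_⟩
  · intro i hi
    have hi' : i.1 < s.card := (Finset.mem_filter.1 hi).2
    simp only [hi', dite_true]
    exact (e.symm ⟨i.1, hi'⟩).2
  · intro i hi j hj hij
    have hi' : i.1 < s.card := (Finset.mem_filter.1 hi).2
    have hj' : j.1 < s.card := (Finset.mem_filter.1 hj).2
    simp only [hi', hj', dite_true] at hij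
    have h1 := e.symm.injective (Subtype.ext hij)
    have h2 : i.1 = j.1 := by simpa using congrArg Fin.val h1
    exact Fin.ext h2
  · intro x hx
    refine ⟨⟨(e ⟨x, hx⟩).1, lt_of_lt_of_le (e ⟨x, hx⟩).2 h⟩, ?_, ?_⟩
    · simp
    · simp
  · intro i hi
    have hi' : ¬ i.1 < s.card := fun h => hi (Finset.mem_filter.2 ⟨Finset.mem_univ _, h⟩)
    simp only [hi', dite_false]

lemma prod_filter_ne_one {G : Type} [Group G] [DecidableEq G] (l : List G) :
    (l.filter (fun x => decide (x ≠ 1))).prod = l.prod := by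
  induction l with
  | nil => rfl
  | cons a l ih =>
    by_cases ha : a = 1
    · subst ha
      rw [List.filter_cons_of_neg (by simp), List.prod_cons, one_mul, ih]
    · rw [List.filter_cons_of_pos (by simpa using ha), List.prod_cons, List.prod_cons, ih]

/-- the key step of torsion-freeness -/
lemma lift_eq_one {G : Type} [Group G] {n : ℕ} (t : Fin n → G) (s : Finset G)
    (hs : ∀ i, t i ≠ 1 → t i ∈ s) (L : ℕ) (hT : NoTors s L) (w : FreeGroup (Fin n))
    (hw : w.toWord.length ≤ L) (q : ℕ) (hq : 0 < q) (hqL : q ≤ L)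
    (h : FreeGroup.lift t w ^ q = 1) : FreeGroup.lift t w = 1 := by
  classical
  have h0 : FreeGroup.lift t w =
      (w.toWord.map fun x => cond x.2 (t x.1) (t x.1)⁻¹).prod := by
    conv_lhs => rw [← FreeGroup.mk_toWord (x := w)]
    rw [FreeGroup.lift_mk]
  set l := w.toWord.map fun x => cond x.2 (t x.1) (t x.1)⁻¹ with hl
  have h1 : (l.filter (fun x => decide (x ≠ 1))).prod = FreeGroup.lift t w := by
    rw [prod_filter_ne_one, h0]
  rw [← h1] at h ⊢
  refine hT _ ?_ ?_ q hq hqL h
  · refine (List.length_filter_le _ _).trans ?_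
    rw [hl, List.length_map]
    exact hw
  · intro x hx
    obtain ⟨hx1, hx2⟩ := List.mem_filter.1 hx
    have hx2' : x ≠ 1 := by simpa using hx2
    obtain ⟨⟨i, b⟩, _, rfl⟩ := List.mem_map.1 hx1
    cases b
    · right
      simp only [cond_false, inv_inv]
      apply hs
      simpa using hx2'
    · left
      simp only [cond_true]
      apply hs
      simpa using hx2'

lemma coeff_el {G : Type} [Group G] [DecidableEq G] {n : ℕ} (t : Fin n → G) (a : Fin n → ℂ)
    (x : G) : (el t a).coeff x = ∑ i, if t i = x then a i else 0 := by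
  classical
  unfold el
  rw [MonoidAlgebra.coeff_sum, Finsupp.finsetSum_apply]
  refine Finset.sum_congr rfl fun i _ => ?_
  rw [MonoidAlgebra.coeff_single, Finsupp.single_apply]

/-- `β` as an `el` -/
lemma eq_el {G : Type} [Group G] (β : MonoidAlgebra ℂ G) {n : ℕ} (t : Fin n → G)
    (S : Finset (Fin n)) (hS : ∀ i ∈ S, ∀ j ∈ S, t i = t j → i = j)
    (hs : ∀ x ∈ β.coeff.support, ∃ i ∈ S, t i = x) :
    β = el t (fun i => open Classical in if i ∈ S then β.coeff (t i) else 0) := by
  classical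
  apply MonoidAlgebra.coeff_injective
  ext x
  rw [coeff_el]
  by_cases hx : x ∈ β.coeff.support
  · obtain ⟨i, hi, rfl⟩ := hs x hx
    rw [Finset.sum_eq_single i]
    · simp [hi]
    · intro j _ hj
      by_cases hjS : j ∈ S
      · rw [if_neg]
        intro h
        exact hj (hS j hjS i hi h)
      · simp [hjS]
    · intro h
      exact absurd (Finset.mem_univ i) h
  · have h0 : β.coeff x = 0 := by simpa using hx
    rw [h0]
    symm
    apply Finset.sum_eq_zero
    intro i _
    by_cases h : t i = x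
    · rw [if_pos h, h, h0]
      simp
    · rw [if_neg h]

lemma isInt_of_tendsto (u : Ultrafilter ℕ) (z : ℕ → ℂ) (w : ℂ) (h : Tendsto z u (𝓝 w))
    (hz : ∀ k, ∃ m : ℤ, z k = m) : ∃ m : ℤ, w = m := by
  have h1 : Tendsto (fun k => (z k).re) u (𝓝 w.re) := (Complex.continuous_re.tendsto _).comp h
  have h2 : Tendsto (fun k => (z k).im) u (𝓝 w.im) := (Complex.continuous_im.tendsto _).comp h
  have h3 : w.re ∈ Set.range (Int.cast : ℤ → ℝ) := by
    refine Int.isClosedEmbedding_coe_real.isClosed_range.mem_of_tendsto h1 ?_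
    refine Eventually.of_forall fun k => ?_
    obtain ⟨m, hm⟩ := hz k
    exact ⟨m, by rw [hm]; simp⟩
  have h4 : w.im = 0 := by
    have h5 : (fun k => (z k).im) = fun _ => (0 : ℝ) := by
      funext k
      obtain ⟨m, hm⟩ := hz k
      rw [hm]; simp
    rw [h5] at h2
    exact (tendsto_nhds_unique h2 tendsto_const_nhds)
  obtain ⟨m, hm⟩ := h3
  exact ⟨m, Complex.ext (by simpa using hm.symm) (by simpa using h4)⟩

lemma eventually_const {X : Type} [Finite X] (u : Ultrafilter ℕ) (f : ℕ → X) :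
    ∃ x, ∀ᶠ k in (u : Filter ℕ), f k = x := by
  have h : ∀ᶠ k in (u : Filter ℕ), ∃ x ∈ (Set.univ : Set X), f k = x :=
    Eventually.of_forall fun k => ⟨f k, Set.mem_univ _, rfl⟩
  rw [Ultrafilter.eventually_exists_mem_iff Set.finite_univ] at h
  obtain ⟨x, -, hx⟩ := h
  exact ⟨x, hx⟩

/-- the normal subgroup of the limit -/
def Nu {n : ℕ} (u : Ultrafilter ℕ) (G : ℕ → Type) [∀ k, Group (G k)] (t : ∀ k, Fin n → G k) :
    Subgroup (FreeGroup (Fin n)) where
  carrier := {w | ∀ᶠ k in (u : Filter ℕ), FreeGroup.lift (t k) w = 1}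
  mul_mem' := by
    intro a b ha hb
    filter_upwards [ha, hb] with k h1 h2
    rw [map_mul, h1, h2, mul_one]
  one_mem' := Eventually.of_forall fun k => map_one _
  inv_mem' := by
    intro a ha
    filter_upwards [ha] with k h1
    rw [map_inv, h1, inv_one]

lemma mem_Nu {n : ℕ} (u : Ultrafilter ℕ) (G : ℕ → Type) [∀ k, Group (G k)]
    (t : ∀ k, Fin n → G k) (w : FreeGroup (Fin n)) :
    w ∈ Nu u G t ↔ ∀ᶠ k in (u : Filter ℕ), FreeGroup.lift (t k) w = 1 := Iff.rfl

instance {n : ℕ} (u : Ultrafilter ℕ) (G : ℕ → Type) [∀ k, Group (G k)]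
    (t : ∀ k, Fin n → G k) : (Nu u G t).Normal where
  conj_mem := by
    intro a ha g
    rw [mem_Nu] at ha ⊢
    filter_upwards [ha] with k h1
    rw [map_mul, map_mul, h1, mul_one, map_inv, mul_inv_cancel]

lemma lift_mk_eq {n : ℕ} (N : Subgroup (FreeGroup (Fin n))) [N.Normal]
    (w : FreeGroup (Fin n)) :
    FreeGroup.lift (fun i => (QuotientGroup.mk (FreeGroup.of i) : FreeGroup (Fin n) ⧸ N)) w =
      QuotientGroup.mk w := by
  have h : FreeGroup.lift (fun i => (QuotientGroup.mk (FreeGroup.of i) : FreeGroup (Fin n) ⧸ N)) =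
      QuotientGroup.mk' N := by
    ext i
    simp
  rw [h]
  rfl

lemma core (hLIM : S_LIM) (n : ℕ) (ε B : ℝ) (G : ℕ → Type) [∀ k, Group (G k)]
    (β : ∀ k, MonoidAlgebra ℂ (G k)) (h1 : ∀ k x, ‖(β k).coeff x‖ ≤ B)
    (h2 : ∀ k, ∃ x, 1 ≤ ‖(β k).coeff x‖) (h3 : ∀ k, (β k).coeff.support.card ≤ n)
    (h4 : ∀ k, NoTors (β k).coeff.support k) (h5 : ∀ k, ε ≤ kdim (β k)) :
    ∃ (G' : Type) (_ : Group G') (α' : MonoidAlgebra ℂ G'), TF G' ∧ α' ≠ 0 ∧ ε ≤ kdim α' ∧
      ((∀ k, Finite (G k)) → LEF G') ∧ ((∀ k, IsInt (β k)) → IsInt α') := by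
  classical
  have hB : 0 ≤ B := by
    obtain ⟨x, _⟩ := h2 0
    exact (norm_nonneg _).trans (h1 0 x)
  choose t S ht1 ht2 ht3 ht4 using fun k => enum_exists (β k).coeff.support n (h3 k)
  let u : Ultrafilter ℕ := hyperfilter ℕ
  have hu : ∀ K : ℕ, ∀ᶠ k in (u : Filter ℕ), K ≤ k := by
    intro K
    have h : ∀ᶠ k in (atTop : Filter ℕ), K ≤ k := eventually_ge_atTop K
    rw [← Nat.cofinite_eq_atTop] at h
    exact h.filter_mono hyperfilter_le_cofinite
  let a : ℕ → Fin n → ℂ := fun k i => if i ∈ S k then (β k).coeff (t k i) else 0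
  have hβ : ∀ k, β k = el (t k) (a k) := by
    intro k
    have := eq_el (β k) (t k) (S k) (ht2 k) (ht3 k)
    convert this using 2
  have ha : ∀ k i, ‖a k i‖ ≤ B := by
    intro k i
    simp only [a]
    split_ifs
    · exact h1 k _
    · simpa using hB
  have hlim : ∀ i, ∃ z, Tendsto (fun k => a k i) u (𝓝 z) := by
    intro i
    have h := (isCompact_closedBall (0 : ℂ) B).ultrafilter_le_nhds (u.map fun k => a k i)
      (by
        rw [le_principal_iff]
        have h0 : ∀ᶠ k in (u : Filter ℕ), a k i ∈ Metric.closedBall (0 : ℂ) B :=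
          Eventually.of_forall fun k => by
            rw [mem_closedBall_zero_iff]; exact ha k i
        exact h0)
    obtain ⟨z, -, hz⟩ := h
    exact ⟨z, hz⟩
  choose a' ha' using hlim
  obtain ⟨S₀, hS₀⟩ := eventually_const u S
  have hi₀ : ∀ k, ∃ i : Fin n, i ∈ S k ∧ 1 ≤ ‖a k i‖ := by
    intro k
    obtain ⟨x, hx⟩ := h2 k
    have hx' : x ∈ (β k).coeff.support := by
      rw [Finsupp.mem_support_iff]
      intro h
      rw [h] at hx
      simp at hx
      linarith
    obtain ⟨i, hi, rfl⟩ := ht3 k x hx'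
    exact ⟨i, hi, by simp only [a, hi, if_true]; exact hx⟩
  choose i0 hi0 hi0' using hi₀
  obtain ⟨i₀, hi₀⟩ := eventually_const u i0
  have hi₀S : i₀ ∈ S₀ := by
    obtain ⟨k, hk1, hk2⟩ := (hi₀.and hS₀).exists
    rw [← hk1, ← hk2]
    exact hi0 k
  have ha₀ : 1 ≤ ‖a' i₀‖ := by
    refine ge_of_tendsto (ha' i₀).norm ?_
    filter_upwards [hi₀] with k hk
    rw [← hk]
    exact hi0' k
  have haS : ∀ i, i ∉ S₀ → a' i = 0 := by
    intro i hi
    refine tendsto_nhds_unique (ha' i) ?_
    refine (tendsto_const_nhds (x := (0 : ℂ))).congr' ?_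
    filter_upwards [hS₀] with k hk
    simp only [a]
    rw [hk, if_neg hi]
  let N := Nu u G t
  let t' : Fin n → FreeGroup (Fin n) ⧸ N := fun i => QuotientGroup.mk (FreeGroup.of i)
  have hlift : ∀ w, FreeGroup.lift t' w = QuotientGroup.mk w := fun w => lift_mk_eq N w
  have hiff : ∀ w : FreeGroup (Fin n), FreeGroup.lift t' w = 1 ↔
      ∀ᶠ k in (u : Filter ℕ), FreeGroup.lift (t k) w = 1 := by
    intro w
    rw [hlift, QuotientGroup.eq_one_iff]
    exact mem_Nu u G t w
  have hinj : ∀ j, j ∈ S₀ → t' j = t' i₀ → j = i₀ := by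
    intro j hj h
    have h' : FreeGroup.lift t' (FreeGroup.of j * (FreeGroup.of i₀)⁻¹) = 1 := by
      rw [map_mul, map_inv, FreeGroup.lift_apply_of, FreeGroup.lift_apply_of, h, mul_inv_cancel]
    rw [hiff] at h'
    obtain ⟨k, hk1, hk2⟩ := (h'.and hS₀).exists
    rw [map_mul, map_inv, FreeGroup.lift_apply_of, FreeGroup.lift_apply_of, mul_inv_eq_one] at hk1
    exact ht2 k j (by rw [hk2]; exact hj) i₀ (by rw [hk2]; exact hi₀S) hk1
  have hcoef : (el t' a').coeff (t' i₀) = a' i₀ := by
    rw [coeff_el, Finset.sum_eq_single i₀]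
    · simp
    · intro j _ hj
      by_cases hjS : j ∈ S₀
      · rw [if_neg]
        intro h
        exact hj (hinj j hjS h)
      · rw [haS j hjS]
        simp
    · intro h
      exact absurd (Finset.mem_univ _) h
  refine ⟨FreeGroup (Fin n) ⧸ N, inferInstance, el t' a', ?_, ?_, ?_, ?_, ?_⟩
  · -- torsion-free
    intro g q hq hg
    obtain ⟨w, rfl⟩ := QuotientGroup.mk_surjective g
    rw [← hlift w] at hg ⊢
    rw [← map_pow, hiff] at hg
    rw [hiff]
    filter_upwards [hg, hu (w.toWord.length), hu q] with k hk1 hk2 hk3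
    refine lift_eq_one (t k) (β k).coeff.support ?_ k (h4 k) w hk2 q hq hk3 ?_
    · intro i hi
      by_cases hS : i ∈ S k
      · exact ht1 k i hS
      · exact absurd (ht4 k i hS) hi
    · rw [← map_pow]
      exact hk1
  · intro h
    rw [h] at hcoef
    simp at hcoef
    rw [← hcoef] at ha₀
    simp at ha₀
    linarith
  · refine hLIM n u G t a (FreeGroup (Fin n) ⧸ N) t' a' B ha ha' hiff ε ?_
    refine Eventually.of_forall fun k => ?_
    rw [← hβ k]
    exact h5 k
  · intro hfin E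
    have e1 : ∀ᶠ k in (u : Filter ℕ), ∀ x ∈ E, ∀ y ∈ E,
        FreeGroup.lift (t k) (x * y).out = FreeGroup.lift (t k) x.out *
          FreeGroup.lift (t k) y.out := by
      rw [Finset.eventually_all]
      intro x _
      rw [Finset.eventually_all]
      intro y _
      have h : (((x * y).out)⁻¹ * (x.out * y.out) : FreeGroup (Fin n)) ∈ N := by
        rw [← QuotientGroup.eq]
        rw [QuotientGroup.mk_mul, QuotientGroup.out_eq', QuotientGroup.out_eq',
          QuotientGroup.out_eq']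
      filter_upwards [(mem_Nu u G t _).1 h] with k hk
      rw [map_mul, map_inv, map_mul, inv_mul_eq_one] at hk
      exact hk
    have e2 : ∀ᶠ k in (u : Filter ℕ), ∀ x ∈ E, ∀ y ∈ E, x ≠ y →
        FreeGroup.lift (t k) x.out ≠ FreeGroup.lift (t k) y.out := by
      rw [Finset.eventually_all]
      intro x _
      rw [Finset.eventually_all]
      intro y _
      by_cases hxy : x = y
      · exact Eventually.of_forall fun k h => absurd hxy h
      · have h : ¬ ((x.out)⁻¹ * y.out : FreeGroup (Fin n)) ∈ N := by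
          rw [← QuotientGroup.eq, QuotientGroup.out_eq', QuotientGroup.out_eq']
          exact hxy
        rw [mem_Nu, ← Ultrafilter.eventually_not] at h
        filter_upwards [h] with k hk _ hk2
        apply hk
        rw [map_mul, map_inv, hk2, inv_mul_cancel]
    obtain ⟨k, hk1, hk2⟩ := (e1.and e2).exists
    refine ⟨G k, inferInstance, hfin k, fun g => FreeGroup.lift (t k) g.out, hk1, ?_⟩
    intro x hx y hy hxy
    by_contra hne
    exact hk2 x hx y hy hne hxy
  · intro hint
    have e : ∀ i, ∃ m : ℤ, a' i = m := by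
      intro i
      refine isInt_of_tendsto u (fun k => a k i) (a' i) (ha' i) ?_
      intro k
      simp only [a]
      split_ifs
      · exact hint k _
      · exact ⟨0, by simp⟩
    choose m hm using e
    intro x
    refine ⟨∑ i, if t' i = x then m i else 0, ?_⟩
    rw [coeff_el]
    push_cast
    refine Finset.sum_congr rfl fun i _ => ?_
    split_ifs
    · rw [hm]
    · rfl

lemma support_smul {G : Type} [Group G] (c : ℂ) (hc : c ≠ 0) (α : MonoidAlgebra ℂ G) :
    (c • α).coeff.support = α.coeff.support := by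
  rw [MonoidAlgebra.coeff_smul]
  exact Finsupp.support_smul_eq hc

lemma kdim_smul {G : Type} [Group G] (c : ℂ) (hc : c ≠ 0) (α : MonoidAlgebra ℂ G) :
    kdim (c • α) = kdim α := by
  have h : LinearMap.ker (Top G (c • α) : E2 G →ₗ[ℂ] E2 G) =
      LinearMap.ker (Top G α : E2 G →ₗ[ℂ] E2 G) := by
    ext f
    simp only [LinearMap.mem_ker, ContinuousLinearMap.coe_coe, map_smul,
      smul_apply]
    simp [hc]
  unfold kdim
  congr! 1

theorem t_SEQ (hLIM : S_LIM) : S_SEQ := by
  classical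
  intro n ε G _ α h0 hcard hT hk
  by_cases hP : ∃ M : ℝ, ∀ k, IsInt (α k) ∧ ∀ x, ‖(α k).coeff x‖ ≤ M
  · obtain ⟨M, hM⟩ := hP
    have key : ∀ k, ∃ x, 1 ≤ ‖(α k).coeff x‖ := by
      intro k
      have h : (α k).coeff ≠ 0 := by
        intro h
        exact h0 k (MonoidAlgebra.coeff_eq_zero.1 h)
      obtain ⟨x, hx⟩ := Finsupp.ne_iff.1 h
      refine ⟨x, ?_⟩
      obtain ⟨m, hm⟩ := (hM k).1 x
      rw [hm] at hx ⊢
      have hm0 : m ≠ 0 := by
        rintro rfl
        simp at hx
      rw [Complex.norm_intCast]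
      exact_mod_cast Int.one_le_abs hm0
    obtain ⟨G', i', α', c1, c2, c3, c4, c5⟩ := core hLIM n ε M G α (fun k => (hM k).2) key hcard hT hk
    exact ⟨G', i', α', c1, c2, c3, c4, fun _ _ => c5 fun k => (hM k).1⟩
  · have hmax : ∀ k, ∃ x, (α k).coeff x ≠ 0 ∧ ∀ y, ‖(α k).coeff y‖ ≤ ‖(α k).coeff x‖ := by
      intro k
      have h : (α k).coeff.support.Nonempty := by
        rw [Finsupp.support_nonempty_iff]
        intro h
        exact h0 k (MonoidAlgebra.coeff_eq_zero.1 h)
      obtain ⟨x, hx, hx2⟩ := Finset.exists_max_image _ (fun x => ‖(α k).coeff x‖) h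
      refine ⟨x, Finsupp.mem_support_iff.1 hx, fun y => ?_⟩
      by_cases hy : y ∈ (α k).coeff.support
      · exact hx2 y hy
      · rw [Finsupp.notMem_support_iff.1 hy]
        simp
    choose x hx1 hx2 using hmax
    have hc : ∀ k, ((α k).coeff (x k))⁻¹ ≠ 0 := fun k => inv_ne_zero (hx1 k)
    have k1 : ∀ k y, ‖(((α k).coeff (x k))⁻¹ • α k).coeff y‖ ≤ 1 := by
      intro k y
      rw [MonoidAlgebra.coeff_smul_apply, smul_eq_mul, norm_mul, norm_inv]
      rw [inv_mul_le_iff₀ (norm_pos_iff.2 (hx1 k)), mul_one]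
      exact hx2 k y
    have k2 : ∀ k, ∃ y, 1 ≤ ‖(((α k).coeff (x k))⁻¹ • α k).coeff y‖ := by
      intro k
      refine ⟨x k, ?_⟩
      rw [MonoidAlgebra.coeff_smul_apply, smul_eq_mul, inv_mul_cancel₀ (hx1 k)]
      simp
    obtain ⟨G', i', α', c1, c2, c3, c4, c5⟩ := core hLIM n ε 1 G
      (fun k => ((α k).coeff (x k))⁻¹ • α k) k1 k2
      (fun k => by rw [support_smul _ (hc k)]; exact hcard k)
      (fun k => by rw [support_smul _ (hc k)]; exact hT k)
      (fun k => by rw [kdim_smul _ (hc k)]; exact hk k)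
    exact ⟨G', i', α', c1, c2, c3, c4, fun M hM => absurd ⟨M, hM⟩ hP⟩

end Pool.Agent.L0h92.UL
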